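import Mathlib
import Pool.Agent.W410.Proj
import Pool.Agent.W410.Alg
import Pool.Agent.W410.PolyDef
import Pool.Agent.W410.PGrp

set_option autoImplicit false

/-!
MP_164b00_al, Q1: the answer is negative, for every principal ideal domain `k` (and more generally
for every nonzero commutative noetherian ring `k`), with one group `G` for all `k`.

The group `G` is the commutator subgroup of `F / [N, N]`, where `F` is a free group of finite rank
and `F / N` is the alternating group of degree 5. It is torsion-free, perfect and virtually
abelian. The augmentation ideal `I` of `k[G]` is idempotent and finitely generated as a right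
ideal, and the module is a direct limit `P` of finitely generated free modules along matrices with
entries in `I`. It satisfies `IP = P`, and it is not finitely generated.
-/

universe u v

namespace Pool.Agent.Results.MP_164b00_al.NotFreePlusIdeal

open Pool.Agent.W410 Pool.Agent.W410.Grp Pool.Agent.W410.Alg

/-- There is a torsion-free polycyclic-by-finite group `G` such that for every nonzero commutative
noetherian ring `k` (in particular, for every principal ideal domain `k`) there is a projective left
`k[G]`-module which is not isomorphic to `F ⊕ I` for any free `k[G]`-module `F` and any left ideal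
`I` of `k[G]`. -/
theorem result :
    ∃ (G : Type) (_ : Group G),
      (∀ g : G, g ≠ 1 → ¬ IsOfFinOrder g) ∧ IsPolycyclicByFinite G ∧
      ∀ (k : Type u) [CommRing k] [Nontrivial k] [IsNoetherianRing k],
        ∃ (P : Type u) (_ : AddCommGroup P) (_ : Module (MonoidAlgebra k G) P),
          Module.Projective (MonoidAlgebra k G) P ∧
          ∀ (F : Type v) [AddCommGroup F] [Module (MonoidAlgebra k G) F]
            [Module.Free (MonoidAlgebra k G) F] (I : Ideal (MonoidAlgebra k G)),
            IsEmpty (P ≃ₗ[MonoidAlgebra k G] (F × I)) := by
  refine ⟨H0, inferInstance, H0_tf, H0_pbf, ?_⟩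
  intro k _ _ _
  have hnoeth : IsNoetherianRing (MonoidAlgebra k H0) := noeth N1 N1_comm
  obtain ⟨S, hS⟩ := (Group.fg_def (G := H0)).1 inferInstance
  let e : S ≃ Fin S.card := S.equivFin
  let s : Fin S.card → H0 := fun i => (e.symm i : H0)
  have hs : Subgroup.closure (Set.range s) = ⊤ := by
    have hS2 : Set.range s = (S : Set H0) := by
      ext x
      constructor
      · rintro ⟨i, rfl⟩
        exact (e.symm i).2
      · intro hx
        exact ⟨e ⟨x, hx⟩, by simp [s]⟩
    rw [hS2, hS]
  obtain ⟨i0, hi0⟩ : ∃ i, s i ≠ 1 := by
    by_contra hcon
    push Not at hcon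
    obtain ⟨h, hh⟩ := H0_nontrivial
    apply hh
    have h1 : h ∈ Subgroup.closure (Set.range s) := by rw [hs]; trivial
    have h2 : Subgroup.closure (Set.range s) ≤ ⊥ := by
      rw [Subgroup.closure_le]
      rintro _ ⟨i, rfl⟩
      exact hcon i
    exact h2 h1
  refine Proj.main (aug k H0) (dd k s) ?_ ?_ (exists_E s hs H0_perfect)
  · intro i
    rw [dd, map_sub, aug_single, map_one, sub_self]
  · intro r hr
    exact eq_zero_of_fixed (s i0) (H0_tf _ hi0) r (hr i0)

end Pool.Agent.Results.MP_164b00_al.NotFreePlusIdeal
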